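import Pool.Agent.Helper62.Mink.Basic

/-!
# M8 of `MP_ae3a4d_gt`: convexity from the second derivative along lines
-/

namespace Pool.Agent.Helper62.Mink

open MeasureTheory Metric Set Polynomial
open scoped RealInnerProductSpace ContDiff NNReal

section param

variable {S : Type*} [TopologicalSpace S] [CompactSpace S] [MeasurableSpace S]
  [OpensMeasurableSpace S] {μ : Measure S} [IsFiniteMeasure μ]

/-- differentiation under the integral sign over a compact space -/
lemma hasDerivAt_param {Ψ Ψ' : ℝ → S → ℝ} (hΨ : ∀ τ, Continuous (Ψ τ))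
    (hΨ' : Continuous (Function.uncurry Ψ'))
    (hd : ∀ τ w, HasDerivAt (fun τ => Ψ τ w) (Ψ' τ w) τ) (τ₀ : ℝ) :
    HasDerivAt (fun τ => ∫ w, Ψ τ w ∂μ) (∫ w, Ψ' τ₀ w ∂μ) τ₀ := by
  have hcomp : IsCompact (Icc (τ₀ - 1) (τ₀ + 1) ×ˢ (univ : Set S)) :=
    isCompact_Icc.prod isCompact_univ
  obtain ⟨C, hC⟩ := hcomp.exists_bound_of_continuousOn hΨ'.continuousOn
  have hint : ∀ g : S → ℝ, Continuous g → Integrable g μ := fun g hg =>
    hg.integrable_of_hasCompactSupport (HasCompactSupport.of_compactSpace g)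
  have hΨ'0 : Continuous (Ψ' τ₀) := hΨ'.comp (Continuous.prodMk_right τ₀)
  refine (hasDerivAt_integral_of_dominated_loc_of_deriv_le (F := Ψ) (F' := Ψ')
    (s := ball τ₀ 1) (bound := fun _ => C) (ball_mem_nhds τ₀ one_pos)
    (Filter.Eventually.of_forall fun τ => (hΨ τ).aestronglyMeasurable) (hint _ (hΨ τ₀))
    hΨ'0.aestronglyMeasurable ?_ (integrable_const C)
    (Filter.Eventually.of_forall fun w τ _ => hd τ w)).2
  refine Filter.Eventually.of_forall fun w τ hτ => ?_
  refine hC (τ, w) ⟨?_, mem_univ _⟩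
  rw [mem_ball, Real.dist_eq, abs_lt] at hτ
  exact ⟨by linarith [hτ.1], by linarith [hτ.2]⟩

end param

/-- the length of `p₀ + τ v` with `‖p₀‖² = a` -/
noncomputable def rr (a τ : ℝ) : ℝ := Real.sqrt (a + τ ^ 2)

lemma rr_pos {a : ℝ} (ha : 0 < a) (τ : ℝ) : 0 < rr a τ :=
  Real.sqrt_pos.2 (by positivity)

lemma rr_sq {a : ℝ} (ha : 0 < a) (τ : ℝ) : rr a τ ^ 2 = a + τ ^ 2 :=
  Real.sq_sqrt (by positivity)

lemma rr_continuous (a : ℝ) : Continuous (rr a) := by
  unfold rr; fun_prop

lemma rr_deriv {a : ℝ} (ha : 0 < a) (τ : ℝ) : HasDerivAt (rr a) (τ / rr a τ) τ := by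
  have h1 : HasDerivAt (fun τ : ℝ => a + τ ^ 2) (2 * τ) τ := by
    have := (hasDerivAt_pow 2 τ).const_add a
    simpa using this
  have h2 := h1.sqrt (by positivity : a + τ ^ 2 ≠ 0)
  refine h2.congr_deriv ?_
  have h3 : rr a τ ≠ 0 := (rr_pos ha τ).ne'
  unfold rr at h3 ⊢
  field_simp

/-- first derivative -/
noncomputable def d1 (p : ℝ[X]) (a P s τ : ℝ) : ℝ :=
  τ / rr a τ * p.eval ((P + τ * s) / rr a τ) +
    p.derivative.eval ((P + τ * s) / rr a τ) * ((s * a - τ * P) / rr a τ ^ 2)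

/-- second derivative -/
noncomputable def d2 (p : ℝ[X]) (a P s τ : ℝ) : ℝ :=
  a / rr a τ ^ 3 * ((p.eval ((P + τ * s) / rr a τ) -
    (P + τ * s) / rr a τ * p.derivative.eval ((P + τ * s) / rr a τ)) +
    p.derivative.derivative.eval ((P + τ * s) / rr a τ) * ((s * a - τ * P) ^ 2 / (a * rr a τ ^ 2)))

lemma t_deriv {a : ℝ} (ha : 0 < a) (P s τ : ℝ) :
    HasDerivAt (fun τ => (P + τ * s) / rr a τ) ((s * a - τ * P) / rr a τ ^ 3) τ := by
  have h1 : HasDerivAt (fun τ : ℝ => P + τ * s) s τ := by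
    have := ((hasDerivAt_id τ).mul_const s).const_add P
    simpa using this
  have h2 := h1.div (rr_deriv ha τ) (rr_pos ha τ).ne'
  refine h2.congr_deriv ?_
  have h3 : rr a τ ≠ 0 := (rr_pos ha τ).ne'
  have h4 := rr_sq ha τ
  field_simp
  rw [h4]
  ring

lemma hasDerivAt_d0 {a : ℝ} (ha : 0 < a) (p : ℝ[X]) (P s τ : ℝ) :
    HasDerivAt (fun τ => rr a τ * p.eval ((P + τ * s) / rr a τ)) (d1 p a P s τ) τ := by
  have h1 : HasDerivAt (fun τ => p.eval ((P + τ * s) / rr a τ))
      (p.derivative.eval ((P + τ * s) / rr a τ) * ((s * a - τ * P) / rr a τ ^ 3)) τ :=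
    (p.hasDerivAt _).comp τ (t_deriv ha P s τ)
  have h2 := (rr_deriv ha τ).mul h1
  refine h2.congr_deriv ?_
  have h3 : rr a τ ≠ 0 := (rr_pos ha τ).ne'
  unfold d1
  field_simp

lemma hasDerivAt_d1 {a : ℝ} (ha : 0 < a) (p : ℝ[X]) (P s τ : ℝ) :
    HasDerivAt (fun τ => d1 p a P s τ) (d2 p a P s τ) τ := by
  have h3 : rr a τ ≠ 0 := (rr_pos ha τ).ne'
  have h4 := rr_sq ha τ
  have e1 : HasDerivAt (fun τ => p.eval ((P + τ * s) / rr a τ))
      (p.derivative.eval ((P + τ * s) / rr a τ) * ((s * a - τ * P) / rr a τ ^ 3)) τ :=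
    (p.hasDerivAt _).comp τ (t_deriv ha P s τ)
  have e2 : HasDerivAt (fun τ => p.derivative.eval ((P + τ * s) / rr a τ))
      (p.derivative.derivative.eval ((P + τ * s) / rr a τ) * ((s * a - τ * P) / rr a τ ^ 3)) τ :=
    (p.derivative.hasDerivAt _).comp τ (t_deriv ha P s τ)
  have e3 : HasDerivAt (fun τ => τ / rr a τ) (a / rr a τ ^ 3) τ := by
    have := (hasDerivAt_id τ).div (rr_deriv ha τ) h3
    refine this.congr_deriv ?_
    simp only [id]
    field_simp
    rw [h4]; ring
  have e4 : HasDerivAt (fun τ => (s * a - τ * P) / rr a τ ^ 2)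
      (-P / rr a τ ^ 2 - 2 * (s * a - τ * P) * τ / rr a τ ^ 4) τ := by
    have h5 : HasDerivAt (fun τ : ℝ => s * a - τ * P) (-P) τ := by
      have := ((hasDerivAt_id τ).mul_const P).const_sub (s * a)
      simpa using this
    have h6 : HasDerivAt (fun τ => rr a τ ^ 2) (2 * rr a τ * (τ / rr a τ)) τ := by
      have := (rr_deriv ha τ).mul (rr_deriv ha τ)
      have e : (fun τ => rr a τ ^ 2) = (fun τ => rr a τ * rr a τ) := by
        funext x; ring
      rw [e]
      refine this.congr_deriv ?_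
      ring
    have := h5.div h6 (pow_ne_zero 2 h3)
    refine this.congr_deriv ?_
    field_simp
  have h7 := (e3.mul e1).add (e2.mul e4)
  refine h7.congr_deriv ?_
  unfold d2
  generalize p.eval ((P + τ * s) / rr a τ) = y0
  generalize p.derivative.eval ((P + τ * s) / rr a τ) = y1
  generalize p.derivative.derivative.eval ((P + τ * s) / rr a τ) = y2
  have ha' : a ≠ 0 := ha.ne'
  have h8 : a = rr a τ ^ 2 - τ ^ 2 := by rw [h4]; ring
  field_simp
  generalize rr a τ = r at *
  subst h8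
  ring

lemma d1_continuous {a : ℝ} (ha : 0 < a) (p : ℝ[X]) {S : Type*} [TopologicalSpace S]
    {P s : S → ℝ} (hP : Continuous P) (hs : Continuous s) :
    Continuous (fun x : ℝ × S => d1 p a (P x.2) (s x.2) x.1) := by
  have h3 : ∀ τ, rr a τ ≠ 0 := fun τ => (rr_pos ha τ).ne'
  have hr := rr_continuous a
  unfold d1
  have ht : Continuous (fun x : ℝ × S => (P x.2 + x.1 * s x.2) / rr a x.1) := by
    refine Continuous.div ?_ (hr.comp continuous_fst) fun x => h3 _
    fun_prop
  refine ((continuous_fst.div (hr.comp continuous_fst) fun x => h3 _).mul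
    (p.continuous.comp ht)).add ((p.derivative.continuous.comp ht).mul ?_)
  refine Continuous.div ?_ ((hr.comp continuous_fst).pow 2) fun x => pow_ne_zero 2 (h3 _)
  fun_prop

lemma d2_continuous {a : ℝ} (ha : 0 < a) (p : ℝ[X]) {S : Type*} [TopologicalSpace S]
    {P s : S → ℝ} (hP : Continuous P) (hs : Continuous s) :
    Continuous (fun x : ℝ × S => d2 p a (P x.2) (s x.2) x.1) := by
  have h3 : ∀ τ, rr a τ ≠ 0 := fun τ => (rr_pos ha τ).ne'
  have hr := rr_continuous a
  unfold d2
  have ht : Continuous (fun x : ℝ × S => (P x.2 + x.1 * s x.2) / rr a x.1) := by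
    refine Continuous.div ?_ (hr.comp continuous_fst) fun x => h3 _
    fun_prop
  refine (Continuous.div continuous_const ((hr.comp continuous_fst).pow 3)
    fun x => pow_ne_zero 3 (h3 _)).mul ?_
  refine ((p.continuous.comp ht).sub (ht.mul (p.derivative.continuous.comp ht))).add
    ((p.derivative.derivative.continuous.comp ht).mul ?_)
  refine Continuous.div ?_ (continuous_const.mul ((hr.comp continuous_fst).pow 2))
    fun x => mul_ne_zero ha.ne' (pow_ne_zero 2 (h3 _))
  fun_prop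

/-- the map `conv` along a line: value -/
lemma conv_line {n : ℕ} (h : E n → ℝ) (p : ℝ[X]) {p₀ v : E n} (hv : ‖v‖ = 1)
    (hpv : (inner ℝ p₀ v : ℝ) = 0) (τ : ℝ) :
    conv h (fun t => p.eval t) (p₀ + τ • v) =
      ∫ w : sphere (0 : E n) 1, h w * (rr (‖p₀‖ ^ 2) τ *
        p.eval ((inner ℝ p₀ (w : E n) + τ * inner ℝ v (w : E n)) / rr (‖p₀‖ ^ 2) τ))
        ∂(volume : Measure (E n)).toSphere := by
  have hn : ‖p₀ + τ • v‖ = rr (‖p₀‖ ^ 2) τ := by
    unfold rr
    rw [eq_comm, Real.sqrt_eq_iff_mul_self_eq (by positivity) (norm_nonneg _), ← sq,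
      norm_add_sq_real, inner_smul_right, hpv, norm_smul, hv, Real.norm_eq_abs, mul_one, sq_abs]
    ring
  unfold conv
  refine integral_congr_ae (Filter.Eventually.of_forall fun w => ?_)
  simp only
  rw [hn, inner_add_left, inner_smul_left]
  rfl

/-- convexity along a line which misses the origin, and continuity -/
lemma conv_line_convex {n : ℕ} {h : E n → ℝ} (hh : Sublinear h) (p : ℝ[X])
    (hkey : ∀ u v : E n, ‖u‖ = 1 → ‖v‖ = 1 → (inner ℝ u v : ℝ) = 0 →
      0 ≤ ∫ w : sphere (0 : E n) 1, h w *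
        ((p.eval (inner ℝ u (w : E n)) - inner ℝ u (w : E n) * p.derivative.eval (inner ℝ u (w : E n)))
          + p.derivative.derivative.eval (inner ℝ u (w : E n)) * (inner ℝ v (w : E n)) ^ 2)
        ∂(volume : Measure (E n)).toSphere) {p₀ v : E n} (hp₀ : p₀ ≠ 0) (hv : ‖v‖ = 1)
    (hpv : (inner ℝ p₀ v : ℝ) = 0) :
    ConvexOn ℝ univ (fun τ : ℝ => conv h (fun t => p.eval t) (p₀ + τ • v)) ∧
      Continuous (fun τ : ℝ => conv h (fun t => p.eval t) (p₀ + τ • v)) := by
  set a := ‖p₀‖ ^ 2 with ha'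
  have hpn : 0 < ‖p₀‖ := norm_pos_iff.2 hp₀
  have ha : 0 < a := by positivity
  have hhc : Continuous (fun w : sphere (0 : E n) 1 => h (w : E n)) :=
    hh.continuous.comp continuous_subtype_val
  have hP : Continuous (fun w : sphere (0 : E n) 1 => (inner ℝ p₀ (w : E n) : ℝ)) := by fun_prop
  have hs : Continuous (fun w : sphere (0 : E n) 1 => (inner ℝ v (w : E n) : ℝ)) := by fun_prop
  have e0 : (fun τ : ℝ => conv h (fun t => p.eval t) (p₀ + τ • v)) = fun τ =>
      ∫ w : sphere (0 : E n) 1, h w * (rr a τ *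
        p.eval ((inner ℝ p₀ (w : E n) + τ * inner ℝ v (w : E n)) / rr a τ))
        ∂(volume : Measure (E n)).toSphere := by
    funext τ
    exact conv_line h p hv hpv τ
  have D1 : ∀ τ, HasDerivAt (fun τ : ℝ => conv h (fun t => p.eval t) (p₀ + τ • v))
      (∫ w : sphere (0 : E n) 1, h w * d1 p a (inner ℝ p₀ (w : E n)) (inner ℝ v (w : E n)) τ
        ∂(volume : Measure (E n)).toSphere) τ := by
    intro τ
    rw [e0]
    refine hasDerivAt_param (Ψ := fun τ (w : sphere (0 : E n) 1) => h w * (rr a τ *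
        p.eval ((inner ℝ p₀ (w : E n) + τ * inner ℝ v (w : E n)) / rr a τ)))
      (Ψ' := fun τ (w : sphere (0 : E n) 1) =>
        h w * d1 p a (inner ℝ p₀ (w : E n)) (inner ℝ v (w : E n)) τ) ?_ ?_ ?_ τ
    · intro τ
      refine hhc.mul (continuous_const.mul (p.continuous.comp ?_))
      exact (hP.add (continuous_const.mul hs)).div_const _
    · exact (hhc.comp continuous_snd).mul (d1_continuous ha p hP hs)
    · intro τ w
      exact (hasDerivAt_d0 ha p _ _ τ).const_mul _
  have D2 : ∀ τ, HasDerivAt (fun τ : ℝ => ∫ w : sphere (0 : E n) 1,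
      h w * d1 p a (inner ℝ p₀ (w : E n)) (inner ℝ v (w : E n)) τ
        ∂(volume : Measure (E n)).toSphere)
      (∫ w : sphere (0 : E n) 1, h w * d2 p a (inner ℝ p₀ (w : E n)) (inner ℝ v (w : E n)) τ
        ∂(volume : Measure (E n)).toSphere) τ := by
    intro τ
    refine hasDerivAt_param (Ψ := fun τ (w : sphere (0 : E n) 1) =>
        h w * d1 p a (inner ℝ p₀ (w : E n)) (inner ℝ v (w : E n)) τ)
      (Ψ' := fun τ (w : sphere (0 : E n) 1) =>
        h w * d2 p a (inner ℝ p₀ (w : E n)) (inner ℝ v (w : E n)) τ) ?_ ?_ ?_ τ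
    · intro τ
      exact hhc.mul ((d1_continuous ha p hP hs).comp (Continuous.prodMk_right τ))
    · exact (hhc.comp continuous_snd).mul (d2_continuous ha p hP hs)
    · intro τ w
      exact (hasDerivAt_d1 ha p _ _ τ).const_mul _
  refine ⟨?_, continuous_iff_continuousAt.2 fun τ => (D1 τ).continuousAt⟩
  have hd1 : deriv (fun τ : ℝ => conv h (fun t => p.eval t) (p₀ + τ • v)) = fun τ =>
      ∫ w : sphere (0 : E n) 1, h w * d1 p a (inner ℝ p₀ (w : E n)) (inner ℝ v (w : E n)) τ
        ∂(volume : Measure (E n)).toSphere := funext fun τ => (D1 τ).deriv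
  refine convexOn_of_deriv2_nonneg' convex_univ
    (fun τ _ => (D1 τ).differentiableAt.differentiableWithinAt) ?_ ?_
  · rw [hd1]
    exact fun τ _ => (D2 τ).differentiableAt.differentiableWithinAt
  · intro τ _
    rw [Function.iterate_succ, Function.comp_apply, Function.iterate_one, hd1, (D2 τ).deriv]
    have hr := rr_pos ha τ
    have hr2 := rr_sq ha τ
    -- the orthonormal pair
    set u : E n := (rr a τ)⁻¹ • (p₀ + τ • v) with hu
    set v' : E n := (‖p₀‖ * rr a τ)⁻¹ • (a • v - τ • p₀) with hv'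
    have hvp : (inner ℝ v p₀ : ℝ) = 0 := by rw [real_inner_comm]; exact hpv
    have hpp : (inner ℝ p₀ p₀ : ℝ) = a := by rw [real_inner_self_eq_norm_sq]
    have hvv : (inner ℝ v v : ℝ) = 1 := by rw [real_inner_self_eq_norm_sq, hv]; norm_num
    have hun : ‖u‖ = 1 := by
      rw [← sq_eq_sq₀ (norm_nonneg _) zero_le_one, ← real_inner_self_eq_norm_sq, hu]
      simp only [inner_smul_left, inner_smul_right, inner_add_left, inner_add_right, hpv, hvp, hpp,
        hvv, conj_trivial]
      field_simp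
      rw [hr2]; ring
    have hvn : ‖v'‖ = 1 := by
      rw [← sq_eq_sq₀ (norm_nonneg _) zero_le_one, ← real_inner_self_eq_norm_sq, hv']
      simp only [inner_smul_left, inner_smul_right, inner_sub_left, inner_sub_right, hpv, hvp, hpp,
        hvv, conj_trivial]
      field_simp
      rw [hr2, ← ha']
      field_simp
      ring
    have huv : (inner ℝ u v' : ℝ) = 0 := by
      rw [hu, hv']
      simp only [inner_smul_left, inner_smul_right, inner_add_left, inner_sub_right, hpv, hvp, hpp,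
        hvv, conj_trivial]
      ring
    have hk := hkey u v' hun hvn huv
    have e2 : ∫ w : sphere (0 : E n) 1,
        h w * d2 p a (inner ℝ p₀ (w : E n)) (inner ℝ v (w : E n)) τ
        ∂(volume : Measure (E n)).toSphere = a / rr a τ ^ 3 * ∫ w : sphere (0 : E n) 1, h w *
        ((p.eval (inner ℝ u (w : E n)) - inner ℝ u (w : E n) * p.derivative.eval (inner ℝ u (w : E n)))
          + p.derivative.derivative.eval (inner ℝ u (w : E n)) * (inner ℝ v' (w : E n)) ^ 2)
        ∂(volume : Measure (E n)).toSphere := by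
      rw [← integral_const_mul]
      refine integral_congr_ae (Filter.Eventually.of_forall fun w => ?_)
      have h1 : (inner ℝ u (w : E n) : ℝ) =
          (inner ℝ p₀ (w : E n) + τ * inner ℝ v (w : E n)) / rr a τ := by
        rw [hu]
        simp only [inner_smul_left, inner_add_left, conj_trivial]
        field_simp
      have h2 : (inner ℝ v' (w : E n) : ℝ) ^ 2 =
          ((inner ℝ v (w : E n)) * a - τ * inner ℝ p₀ (w : E n)) ^ 2 / (a * rr a τ ^ 2) := by
        rw [hv']
        simp only [inner_smul_left, inner_sub_left, conj_trivial]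
        rw [mul_pow, inv_pow, mul_pow, ← ha']
        field_simp
      simp only
      rw [h1, h2]
      unfold d2
      ring
    rw [e2]
    exact mul_nonneg (by positivity) hk

/-! ### M8 -/
theorem conv_add_le_of_key {n : ℕ} (hn : 2 ≤ n) {h : E n → ℝ} (hh : Sublinear h) (p : ℝ[X])
    (hkey : ∀ u v : E n, ‖u‖ = 1 → ‖v‖ = 1 → (inner ℝ u v : ℝ) = 0 →
      0 ≤ ∫ w : sphere (0 : E n) 1, h w *
        ((p.eval (inner ℝ u (w : E n)) - inner ℝ u (w : E n) * p.derivative.eval (inner ℝ u (w : E n)))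
          + p.derivative.derivative.eval (inner ℝ u (w : E n)) * (inner ℝ v (w : E n)) ^ 2)
        ∂(volume : Measure (E n)).toSphere) (x y : E n) :
    conv h (fun t => p.eval t) (x + y) ≤ conv h (fun t => p.eval t) x + conv h (fun t => p.eval t) y := by
  set G := conv h (fun t => p.eval t) with hG
  have hhom : ∀ c : ℝ, 0 ≤ c → ∀ z, G (c • z) = c * G z := fun c hc z => conv_smul h _ hc z
  -- the independent case
  have hind : ∀ x y : E n, x ≠ y → (∀ p₀ v : E n, y - x = ‖y - x‖ • v →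
      p₀ = x - (inner ℝ x v : ℝ) • v → p₀ ≠ 0) → G (x + y) ≤ G x + G y := by
    intro x y hxy hp0
    have hne : y - x ≠ 0 := sub_ne_zero.2 (Ne.symm hxy)
    have hnn : ‖y - x‖ ≠ 0 := norm_ne_zero_iff.2 hne
    set v : E n := ‖y - x‖⁻¹ • (y - x) with hv
    have hv1 : ‖v‖ = 1 := by
      rw [hv, norm_smul, norm_inv, norm_norm, inv_mul_cancel₀ hnn]
    have hyx : y - x = ‖y - x‖ • v := by
      rw [hv, smul_smul, mul_inv_cancel₀ hnn, one_smul]
    set p₀ : E n := x - (inner ℝ x v : ℝ) • v with hp₀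
    have hpne := hp0 p₀ v hyx hp₀
    have hpv : (inner ℝ p₀ v : ℝ) = 0 := by
      rw [hp₀, inner_sub_left, inner_smul_left, real_inner_self_eq_norm_sq, hv1]
      simp
    obtain ⟨hconv, -⟩ := conv_line_convex hh p hkey hpne hv1 hpv
    have hx : p₀ + (inner ℝ x v : ℝ) • v = x := by rw [hp₀]; abel
    have hy : p₀ + ((inner ℝ x v : ℝ) + ‖y - x‖) • v = y := by
      rw [add_smul, ← hyx, ← add_assoc, hx]; abel
    have h1 := hconv.2 (mem_univ (inner ℝ x v : ℝ)) (mem_univ ((inner ℝ x v : ℝ) + ‖y - x‖))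
      (by norm_num : (0:ℝ) ≤ 1/2) (by norm_num : (0:ℝ) ≤ 1/2) (by norm_num)
    simp only [smul_eq_mul] at h1
    rw [← hG, hx, hy] at h1
    have h2 : p₀ + (1 / 2 * (inner ℝ x v : ℝ) + 1 / 2 * ((inner ℝ x v : ℝ) + ‖y - x‖)) • v =
        (1 / 2 : ℝ) • (x + y) := by
      have h3 : (1 / 2 : ℝ) • (x + y) = (1 / 2 : ℝ) • (p₀ + (inner ℝ x v : ℝ) • v) +
          (1 / 2 : ℝ) • (p₀ + ((inner ℝ x v : ℝ) + ‖y - x‖) • v) := by
        rw [hx, hy, smul_add]
      rw [h3]
      module
    rw [h2, hhom _ (by norm_num)] at h1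
    linarith
  -- x and -x
  have hpm : ∀ x : E n, x ≠ 0 → 0 ≤ G x + G (-x) := by
    intro x hx
    -- a unit vector orthogonal to x
    obtain ⟨v, hv1, hxv⟩ : ∃ v : E n, ‖v‖ = 1 ∧ (inner ℝ x v : ℝ) = 0 := by
      have hfin : Module.finrank ℝ (E n) = n := by simp
      have hlt : Module.finrank ℝ (ℝ ∙ x) < Module.finrank ℝ (E n) := by
        rw [finrank_span_singleton hx, hfin]; omega
      have hortho : (ℝ ∙ x)ᗮ ≠ ⊥ := by
        intro hbot
        have := Submodule.finrank_add_finrank_orthogonal (ℝ ∙ x)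
        rw [hbot, finrank_bot, add_zero] at this
        omega
      obtain ⟨z, hz, hz0⟩ := Submodule.exists_mem_ne_zero_of_ne_bot hortho
      have hzn : ‖z‖ ≠ 0 := norm_ne_zero_iff.2 hz0
      refine ⟨‖z‖⁻¹ • z, ?_, ?_⟩
      · rw [norm_smul, norm_inv, norm_norm, inv_mul_cancel₀ hzn]
      · rw [inner_smul_right, (Submodule.mem_orthogonal _ _).1 hz x (Submodule.mem_span_singleton_self x),
          mul_zero]
    have hxv' : (inner ℝ (-x) v : ℝ) = 0 := by rw [inner_neg_left, hxv, neg_zero]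
    obtain ⟨-, c1⟩ := conv_line_convex hh p hkey hx hv1 hxv
    obtain ⟨-, c2⟩ := conv_line_convex hh p hkey (neg_ne_zero.2 hx) hv1 hxv'
    rw [← hG] at c1 c2
    have hineq : ∀ ε : ℝ, 0 < ε → 2 * ε * G v ≤ G (x + ε • v) + G (-x + ε • v) := by
      intro ε hε
      have h1 : (x + ε • v) + (-x + ε • v) = (2 * ε) • v := by module
      have h2 := hind (x + ε • v) (-x + ε • v) ?_ ?_
      · rw [h1, hhom _ (by positivity)] at h2
        exact h2
      · intro h
        have h3 : x = -x := add_right_cancel h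
        have h4 : (2 : ℝ) • x = 0 := by
          rw [two_smul]; nth_rewrite 2 [h3]; simp
        exact hx ((smul_eq_zero.1 h4).resolve_left (by norm_num))
      · intro p₀ v' hv' hp₀ hp0
        -- v' is parallel to x
        have h5 : -x + ε • v - (x + ε • v) = (-2 : ℝ) • x := by module
        rw [h5] at hv'
        have h6 : ‖(-2 : ℝ) • x‖ ≠ 0 := norm_ne_zero_iff.2 (smul_ne_zero (by norm_num) hx)
        have h7 : v' = (‖(-2 : ℝ) • x‖⁻¹ * (-2)) • x := by
          have h71 : (‖(-2 : ℝ) • x‖⁻¹ * (-2)) • x = ‖(-2 : ℝ) • x‖⁻¹ • ((-2 : ℝ) • x) :=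
            mul_smul _ _ _
          have h72 : ‖(-2 : ℝ) • x‖⁻¹ • ((-2 : ℝ) • x)
              = ‖(-2 : ℝ) • x‖⁻¹ • (‖(-2 : ℝ) • x‖ • v') :=
            congrArg (fun z => ‖(-2 : ℝ) • x‖⁻¹ • z) hv'
          rw [h71, h72, smul_smul, inv_mul_cancel₀ h6, one_smul]
        rw [hp0, eq_comm, sub_eq_zero] at hp₀
        have h8 : (inner ℝ (x + ε • v) v : ℝ) = ε := by
          rw [inner_add_left, inner_smul_left, hxv, real_inner_self_eq_norm_sq, hv1]; simp
        have h9 : (inner ℝ (x + ε • v) v : ℝ) = 0 := by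
          rw [hp₀, h7, inner_smul_left, inner_smul_left, hxv]; simp
        rw [h8] at h9
        exact hε.ne' h9
    have hlim1 : Filter.Tendsto (fun ε : ℝ => G (x + ε • v) + G (-x + ε • v))
        (nhdsWithin 0 (Ioi 0)) (nhds (G x + G (-x))) := by
      have : Filter.Tendsto (fun ε : ℝ => G (x + ε • v) + G (-x + ε • v)) (nhds 0)
          (nhds (G (x + (0:ℝ) • v) + G (-x + (0:ℝ) • v))) := (c1.add c2).tendsto 0
      rw [zero_smul, add_zero, add_zero] at this
      exact this.mono_left nhdsWithin_le_nhds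
    have hlim2 : Filter.Tendsto (fun ε : ℝ => 2 * ε * G v) (nhdsWithin 0 (Ioi 0)) (nhds 0) := by
      have : Filter.Tendsto (fun ε : ℝ => 2 * ε * G v) (nhds 0) (nhds (2 * 0 * G v)) :=
        (Continuous.tendsto (by fun_prop) 0)
      rw [mul_zero, zero_mul] at this
      exact this.mono_left nhdsWithin_le_nhds
    refine le_of_tendsto_of_tendsto hlim2 hlim1 ?_
    filter_upwards [self_mem_nhdsWithin] with ε hε using hineq ε hε
  have hzero : G 0 = 0 := by
    have := hhom 0 le_rfl 0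
    rw [zero_smul, zero_mul] at this
    exact this
  -- general case
  by_cases hx : x = 0
  · rw [hx, zero_add, hzero, zero_add]
  by_cases hdep : ∃ c : ℝ, y = c • x
  · obtain ⟨c, rfl⟩ := hdep
    rcases le_or_gt 0 c with hc | hc
    · have h1 : x + c • x = (1 + c) • x := by module
      rw [h1, hhom _ (by linarith), hhom _ hc]
      linarith
    · have h2 : c • x = (-c) • (-x) := by module
      rw [h2, hhom (-c) (by linarith)]
      have h3 := hpm x hx
      rcases le_or_gt (-c) 1 with h4 | h4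
      · have h5 : x + (-c) • (-x) = (1 + c) • x := by module
        rw [h5, hhom _ (by linarith)]
        nlinarith
      · have h5 : x + (-c) • (-x) = (-c - 1) • (-x) := by module
        rw [h5, hhom _ (by linarith)]
        nlinarith
  · refine hind x y ?_ ?_
    · intro h
      exact hdep ⟨1, by rw [h, one_smul]⟩
    · intro p₀ v hv hp₀ hp0
      rw [hp0, eq_comm, sub_eq_zero] at hp₀
      -- x = <x,v> v, y = x + |y-x| v
      set k : ℝ := inner ℝ x v with hk
      have hk0 : k ≠ 0 := by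
        intro h
        rw [h, zero_smul] at hp₀
        exact hx hp₀
      apply hdep
      refine ⟨(k + ‖y - x‖) * k⁻¹, ?_⟩
      have h1 : y = x + ‖y - x‖ • v := by rw [← hv]; abel
      have h2 : v = k⁻¹ • x := by
        rw [hp₀, smul_smul, inv_mul_cancel₀ hk0, one_smul]
      have h3 : (k + ‖y - x‖) * k⁻¹ = 1 + ‖y - x‖ * k⁻¹ := by field_simp
      rw [h3, add_smul, one_smul, mul_smul, ← h2]
      exact h1

end Pool.Agent.Helper62.Mink
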